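import Pool.Agent.H852R2.DM.Defs

/-! Project DM (helper852), task RETURN: first return map. -/

namespace DM852
open RC14 RC852 Finset Equiv

namespace RETURN

variable {n : ℕ} {Θ : Perm (Fin n)} {P : Fin n → Prop}

theorem exists_om (Θ : Perm (Fin n)) (P : Fin n → Prop) : ∃ ω : {x // P x} → ℕ,
    (∀ d, 1 ≤ ω d) ∧ (∀ d : {x // P x}, P ((Θ ^ ω d) (d : Fin n))) ∧
    ∀ (d : {x // P x}) (t : ℕ), 1 ≤ t → t < ω d → ¬ P ((Θ ^ t) (d : Fin n)) := by
  classical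
  have h : ∀ d : {x // P x}, ∃ t : ℕ, 1 ≤ t ∧ P ((Θ ^ t) (d : Fin n)) := fun d =>
    ⟨orderOf Θ, orderOf_pos Θ, by rw [pow_orderOf_eq_one]; exact d.2⟩
  refine ⟨fun d => Nat.find (h d), fun d => (Nat.find_spec (h d)).1,
    fun d => (Nat.find_spec (h d)).2, fun d t h1 h2 h3 => Nat.find_min (h d) h2 ⟨h1, h3⟩⟩

variable {ω : {x // P x} → ℕ}

theorem uniq_le (h3 : ∀ (d : {x // P x}) (t : ℕ), 1 ≤ t → t < ω d → ¬ P ((Θ ^ t) (d : Fin n)))
    {d d' : {x // P x}} {t t' : ℕ} (hle : t ≤ t') (ht' : t' - t < ω d')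
    (h : (Θ ^ t) (d : Fin n) = (Θ ^ t') (d' : Fin n)) : d = d' ∧ t = t' := by
  have h1 : (Θ ^ (t' - t)) (d' : Fin n) = d := by
    apply (Θ ^ t).injective
    rw [h, ← Perm.mul_apply, ← pow_add]
    congr 2
    omega
  rcases Nat.eq_zero_or_pos (t' - t) with h0 | h0
  · rw [h0, pow_zero, Perm.one_apply] at h1
    exact ⟨(Subtype.ext h1).symm, by omega⟩
  · exfalso
    apply h3 d' (t' - t) h0 ht'
    rw [h1]
    exact d.2

theorem uniq (h3 : ∀ (d : {x // P x}) (t : ℕ), 1 ≤ t → t < ω d → ¬ P ((Θ ^ t) (d : Fin n)))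
    {d d' : {x // P x}} {t t' : ℕ} (ht : t < ω d) (ht' : t' < ω d')
    (h : (Θ ^ t) (d : Fin n) = (Θ ^ t') (d' : Fin n)) : d = d' ∧ t = t' := by
  rcases le_total t t' with hle | hle
  · exact uniq_le h3 hle (by omega) h
  · obtain ⟨h1, h2⟩ := uniq_le h3 hle (d := d') (d' := d) (by omega) h.symm
    exact ⟨h1.symm, h2.symm⟩

theorem exists_N (h1 : ∀ d, 1 ≤ ω d) (h2 : ∀ d : {x // P x}, P ((Θ ^ ω d) (d : Fin n)))
    (h3 : ∀ (d : {x // P x}) (t : ℕ), 1 ≤ t → t < ω d → ¬ P ((Θ ^ t) (d : Fin n))) :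
    ∃ N : Perm {x // P x}, ∀ d, (Θ ^ ω d) (d : Fin n) = (N d : Fin n) := by
  have hinj : Function.Injective (fun d : {x // P x} =>
      (⟨(Θ ^ ω d) (d : Fin n), h2 d⟩ : {x // P x})) := by
    intro d d' h
    have h' : (Θ ^ ω d) (d : Fin n) = (Θ ^ ω d') (d' : Fin n) := congrArg Subtype.val h
    rcases le_total (ω d) (ω d') with hle | hle
    · have := h1 d
      have := h1 d'
      exact (uniq_le h3 hle (by omega) h').1
    · have := h1 d
      have := h1 d'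
      exact (uniq_le h3 hle (d := d') (d' := d) (by omega) h'.symm).1.symm
  exact ⟨Equiv.ofBijective _ (Finite.injective_iff_bijective.1 hinj), fun d => rfl⟩

theorem back (Θ : Perm (Fin n)) (h3 : ∀ d, 1 ≤ ω d)
    (h2 : ∀ d : {x // P x}, P ((Θ ^ ω d) (d : Fin n))) {p : Fin n}
    (hp : ∃ t : ℕ, P ((Θ ^ t) p)) : ∃ (d : {x // P x}) (t : ℕ), t < ω d ∧
      (Θ ^ t) (d : Fin n) = p := by
  classical
  obtain ⟨s, hs⟩ := hp
  have hex : ∃ t : ℕ, P ((Θ ^ t).symm p) := by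
    refine ⟨(orderOf Θ - 1) * s, ?_⟩
    have h4 : (Θ ^ ((orderOf Θ - 1) * s)).symm p = (Θ ^ s) p := by
      rw [Equiv.symm_apply_eq, ← Perm.mul_apply, ← pow_add]
      have h5 : (orderOf Θ - 1) * s + s = orderOf Θ * s := by
        have := orderOf_pos Θ
        obtain ⟨m, hm⟩ : ∃ m, orderOf Θ = m + 1 := ⟨orderOf Θ - 1, by omega⟩
        rw [hm]
        simp
        ring
      rw [h5, pow_mul, pow_orderOf_eq_one, one_pow, Perm.one_apply]
    rw [h4]
    exact hs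
  refine ⟨⟨(Θ ^ Nat.find hex).symm p, Nat.find_spec hex⟩, Nat.find hex, ?_, ?_⟩
  · by_contra hcon
    push Not at hcon
    have h4 := h2 ⟨(Θ ^ Nat.find hex).symm p, Nat.find_spec hex⟩
    have h5 := h3 ⟨(Θ ^ Nat.find hex).symm p, Nat.find_spec hex⟩
    set w := ω ⟨(Θ ^ Nat.find hex).symm p, Nat.find_spec hex⟩ with hw
    have h6 : (Θ ^ w) ((Θ ^ Nat.find hex).symm p) = (Θ ^ (Nat.find hex - w)).symm p := by
      rw [Equiv.eq_symm_apply, ← Perm.mul_apply, ← pow_add]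
      have h7 : Nat.find hex - w + w = Nat.find hex := by omega
      rw [h7, Equiv.apply_symm_apply]
    simp only at h4
    rw [h6] at h4
    exact Nat.find_min hex (by omega) h4
  · simp

variable [DecidablePred P]

theorem phi_lt (h3 : ∀ (d : {x // P x}) (t : ℕ), 1 ≤ t → t < ω d → ¬ P ((Θ ^ t) (d : Fin n)))
    (u : Perm {x // P x}) (d : {x // P x}) : ∀ t, t < ω d →
      ((Perm.ofSubtype u * Θ) ^ t) (d : Fin n) = (Θ ^ t) (d : Fin n) := by
  intro t
  induction t with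
  | zero => intro _; rfl
  | succ t ih =>
    intro ht
    rw [pow_succ', Perm.mul_apply, ih (by omega), Perm.mul_apply, ← Perm.mul_apply Θ, ← pow_succ']
    exact Perm.ofSubtype_apply_of_not_mem u (h3 d (t + 1) (by omega) ht)

theorem phi_om (h1 : ∀ d, 1 ≤ ω d)
    (h3 : ∀ (d : {x // P x}) (t : ℕ), 1 ≤ t → t < ω d → ¬ P ((Θ ^ t) (d : Fin n)))
    {N : Perm {x // P x}} (hN : ∀ d, (Θ ^ ω d) (d : Fin n) = (N d : Fin n))
    (u : Perm {x // P x}) (d : {x // P x}) :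
      ((Perm.ofSubtype u * Θ) ^ ω d) (d : Fin n) = ((u * N) d : {x // P x}) := by
  obtain ⟨t, ht⟩ : ∃ t, ω d = t + 1 := ⟨ω d - 1, by have := h1 d; omega⟩
  have h4 := hN d
  rw [ht] at h4 ⊢
  rw [pow_succ', Perm.mul_apply, phi_lt h3 u d t (by omega), Perm.mul_apply,
    ← Perm.mul_apply Θ, ← pow_succ', h4, Perm.ofSubtype_apply_coe]
  rfl

theorem same (h1 : ∀ d, 1 ≤ ω d)
    (h3 : ∀ (d : {x // P x}) (t : ℕ), 1 ≤ t → t < ω d → ¬ P ((Θ ^ t) (d : Fin n)))
    {N : Perm {x // P x}} (hN : ∀ d, (Θ ^ ω d) (d : Fin n) = (N d : Fin n))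
    (u : Perm {x // P x}) (d : {x // P x}) (i : ℕ) :
      (Perm.ofSubtype u * Θ).SameCycle (d : Fin n) ((((u * N) ^ i) d : {x // P x}) : Fin n) := by
  induction i with
  | zero => exact Perm.SameCycle.refl _ _
  | succ i ih =>
    rw [pow_succ', Perm.mul_apply, ← phi_om h1 h3 hN u]
    exact Perm.sameCycle_pow_right.2 ih

theorem reach (h1 : ∀ d, 1 ≤ ω d)
    (h3 : ∀ (d : {x // P x}) (t : ℕ), 1 ≤ t → t < ω d → ¬ P ((Θ ^ t) (d : Fin n)))
    {N : Perm {x // P x}} (hN : ∀ d, (Θ ^ ω d) (d : Fin n) = (N d : Fin n))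
    (u : Perm {x // P x}) (d : {x // P x}) (i : ℕ) : ∃ (d' : {x // P x}) (t : ℕ),
      (u * N).SameCycle d d' ∧ t < ω d' ∧
        ((Perm.ofSubtype u * Θ) ^ i) (d : Fin n) = ((Perm.ofSubtype u * Θ) ^ t) (d' : Fin n) := by
  induction i with
  | zero => exact ⟨d, 0, Perm.SameCycle.refl _ _, h1 d, rfl⟩
  | succ i ih =>
    obtain ⟨d', t, k1, k2, k3⟩ := ih
    have k4 : ((Perm.ofSubtype u * Θ) ^ (i + 1)) (d : Fin n) =
        ((Perm.ofSubtype u * Θ) ^ (t + 1)) (d' : Fin n) := by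
      rw [pow_succ', Perm.mul_apply, k3, ← Perm.mul_apply, ← pow_succ']
    rcases Nat.lt_or_ge (t + 1) (ω d') with h | h
    · exact ⟨d', t + 1, k1, h, k4⟩
    · have h5 : t + 1 = ω d' := by omega
      refine ⟨(u * N) d', 0, k1.trans (Perm.sameCycle_apply_right.2 (Perm.SameCycle.refl _ _)),
        h1 _, ?_⟩
      rw [k4, h5, phi_om h1 h3 hN u]
      rfl

end RETURN

open Classical in
/-- first return map `N` of `Θ` to `{x | P x}`, return times `ω`, and the sizes of the orbits of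
`u Θ` for permutations `u` of `{x | P x}` -/
theorem RETURN {n : ℕ} (Θ : Perm (Fin n)) (P : Fin n → Prop) :
    ∃ (N : Perm {x // P x}) (ω : {x // P x} → ℕ),
      (∀ d : {x // P x}, 1 ≤ ω d ∧ (Θ ^ ω d) (d : Fin n) = (N d : Fin n) ∧
        ∀ t, 1 ≤ t → t < ω d → ¬ P ((Θ ^ t) (d : Fin n))) ∧
      (∑ d, ω d = #{p : Fin n | ∃ t : ℕ, P ((Θ ^ t) p)}) ∧
      (∀ (u : Perm {x // P x}) (d : {x // P x}),
        #{p : Fin n | (Perm.ofSubtype u * Θ).SameCycle (d : Fin n) p} =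
          ∑ d' : {x // P x} with (u * N).SameCycle d d', ω d') ∧
      (∀ (u : Perm {x // P x}) (p : Fin n), (∀ t : ℕ, ¬ P ((Θ ^ t) p)) →
        ∀ t : ℕ, ((Perm.ofSubtype u * Θ) ^ t) p = (Θ ^ t) p) := by
  obtain ⟨ω, h1, h2, h3⟩ := RETURN.exists_om Θ P
  obtain ⟨N, hN⟩ := RETURN.exists_N h1 h2 h3
  refine ⟨N, ω, fun d => ⟨h1 d, hN d, h3 d⟩, ?_, ?_, ?_⟩
  · have e1 : ∑ d, ω d = #((univ : Finset {x // P x}).sigma fun d => range (ω d)) := by
      rw [Finset.card_sigma]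
      simp
    rw [e1]
    refine Finset.card_bij (fun x _ => (Θ ^ x.2) (x.1 : Fin n)) ?_ ?_ ?_
    · rintro ⟨d, t⟩ hx
      rw [mem_sigma, mem_range] at hx
      rw [mem_filter]
      refine ⟨mem_univ _, ω d - t, ?_⟩
      rw [← Perm.mul_apply, ← pow_add]
      have : ω d - t + t = ω d := by
        have := hx.2
        simp only at this
        omega
      simp only
      rw [this]
      exact h2 d
    · rintro ⟨d, t⟩ hx ⟨d', t'⟩ hx' h
      rw [mem_sigma, mem_range] at hx hx'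
      obtain ⟨k1, k2⟩ := RETURN.uniq h3 hx.2 hx'.2 h
      simp only at k1 k2
      subst k1 k2
      rfl
    · intro p hp
      rw [mem_filter] at hp
      obtain ⟨d, t, k1, k2⟩ := RETURN.back Θ h1 h2 hp.2
      refine ⟨⟨d, t⟩, ?_, k2⟩
      rw [mem_sigma, mem_range]
      exact ⟨mem_univ _, k1⟩
  · intro u d
    have e1 : ∑ d' : {x // P x} with (u * N).SameCycle d d', ω d' =
        #((univ.filter fun d' : {x // P x} => (u * N).SameCycle d d').sigma
          fun d => range (ω d)) := by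
      rw [Finset.card_sigma]
      simp
    rw [e1]
    symm
    refine Finset.card_bij (fun x _ => (Θ ^ x.2) (x.1 : Fin n)) ?_ ?_ ?_
    · rintro ⟨d', t⟩ hx
      rw [mem_sigma, mem_range, mem_filter] at hx
      rw [mem_filter]
      refine ⟨mem_univ _, ?_⟩
      obtain ⟨⟨_, hs⟩, ht⟩ := hx
      simp only at hs ht ⊢
      obtain ⟨i, hi⟩ := hs.exists_nat_pow_eq
      rw [← RETURN.phi_lt h3 u d' t ht, ← hi]
      exact Perm.sameCycle_pow_right.2 (RETURN.same h1 h3 hN u d i)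
    · rintro ⟨d, t⟩ hx ⟨d', t'⟩ hx' h
      rw [mem_sigma, mem_range] at hx hx'
      obtain ⟨k1, k2⟩ := RETURN.uniq h3 hx.2 hx'.2 h
      simp only at k1 k2
      subst k1 k2
      rfl
    · intro p hp
      rw [mem_filter] at hp
      obtain ⟨i, hi⟩ := hp.2.exists_nat_pow_eq
      obtain ⟨d', t, k1, k2, k3⟩ := RETURN.reach h1 h3 hN u d i
      refine ⟨⟨d', t⟩, ?_, ?_⟩
      · rw [mem_sigma, mem_range, mem_filter]
        exact ⟨⟨mem_univ _, k1⟩, k2⟩
      · simp only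
        rw [← RETURN.phi_lt h3 u d' t k2, ← k3, hi]
  · intro u p hp t
    induction t with
    | zero => rfl
    | succ t ih =>
      rw [pow_succ', Perm.mul_apply, ih, Perm.mul_apply, ← Perm.mul_apply Θ, ← pow_succ']
      exact Perm.ofSubtype_apply_of_not_mem u (hp (t + 1))

end DM852
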